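import Pool.Agent.Q66.SH.Stm

/-!
# Job BLL of project SH: Bernstein numbers of block diagonal operators
-/

set_option autoImplicit false

open Filter Topology Finset
open scoped ENNReal

namespace Pool.Agent.Q194.SH

open Pool.Agent.Q66.SH

section
variable {H : Type} [NormedAddCommGroup H] [InnerProductSpace ℂ H]

/-- Bernstein numbers: smaller dimensions. -/
lemma bern_anti {D : H →L[ℂ] H} {m n : ℕ} {s : ℝ} (h : Bern D n s) (hmn : m ≤ n) : Bern D m s := by
  obtain ⟨V, hf, hd, hV⟩ := h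
  have h1 : m + 1 ≤ Module.finrank ℂ V := by omega
  obtain ⟨f, hfi⟩ := exists_linearIndependent_of_le_finrank (R := ℂ) h1
  have h2 : LinearIndependent ℂ (fun i => (f i : H)) :=
    hfi.map' V.subtype (Submodule.ker_subtype V)
  refine ⟨Submodule.span ℂ (Set.range fun i => (f i : H)), ?_, ?_, ?_⟩
  · exact FiniteDimensional.span_of_finite ℂ (Set.finite_range _)
  · rw [finrank_span_eq_card h2, Fintype.card_fin]
  · intro x hx
    refine hV x ?_
    have h3 : Submodule.span ℂ (Set.range fun i => (f i : H)) ≤ V := by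
      rw [Submodule.span_le]
      rintro _ ⟨i, rfl⟩
      exact (f i).2
    exact h3 hx

/-- the set of the indices with `t < brn` is a lower set -/
lemma brn_spec {D : H →L[ℂ] H} {n : ℕ} {t : ℝ≥0∞} (h : t < brn n D) :
    ∃ s : ℝ, Bern D n s ∧ t < ENNReal.ofReal s := by
  unfold brn at h
  rw [lt_iSup_iff] at h
  obtain ⟨s, h⟩ := h
  rw [lt_iSup_iff] at h
  obtain ⟨h1, h2⟩ := h
  exact ⟨s, h1, h2⟩

lemma brn_lt_of_le {D : H →L[ℂ] H} {m n : ℕ} {t : ℝ≥0∞} (h : t < brn n D) (hmn : m ≤ n) :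
    t < brn m D := by
  obtain ⟨s, h1, h2⟩ := brn_spec h
  unfold brn
  rw [lt_iSup_iff]
  refine ⟨s, ?_⟩
  rw [lt_iSup_iff]
  exact ⟨bern_anti h1 hmn, h2⟩

/-- an initial segment of `ℕ` with at least `d` elements contains `d - 1` -/
lemma mem_of_le_encard {A : Set ℕ} (hA : ∀ i ∈ A, ∀ j ≤ i, j ∈ A) {d : ℕ} (hd : 1 ≤ d)
    (h : (d : ℕ∞) ≤ A.encard) : d - 1 ∈ A := by
  by_contra hn
  have h1 : A ⊆ Set.Iio (d - 1) := by
    intro i hi
    rw [Set.mem_Iio]
    by_contra h2
    exact hn (hA i hi _ (not_lt.1 h2))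
  have h2 : A.encard ≤ ((d - 1 : ℕ) : ℕ∞) := by
    refine (Set.encard_le_encard h1).trans ?_
    have h3 : (Set.Iio (d - 1)).encard = ((d - 1 : ℕ) : ℕ∞) := by
      have := Set.encard_coe_eq_coe_finsetCard (Finset.range (d - 1))
      rw [Finset.coe_range, Finset.card_range] at this
      exact this
    exact h3.le
  have h3 := h.trans h2
  have h4 : d ≤ d - 1 := by exact_mod_cast h3
  omega

/-- truncation of a sum -/
lemma min_sum_le (k : ℕ∞) (a : ℕ → ℕ∞) (n : ℕ) :
    min k (∑ j ∈ range n, a j) ≤ ∑ j ∈ range n, min k (a j) := by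
  induction n with
  | zero => simp
  | succ n ih =>
    rw [sum_range_succ, sum_range_succ]
    rcases le_total k (∑ j ∈ range n, a j) with h | h
    · rw [min_eq_left h] at ih
      exact (min_le_left _ _).trans (ih.trans le_self_add)
    · rw [min_eq_right h] at ih
      rcases le_total k (a n) with h' | h'
      · rw [min_eq_left h']
        exact (min_le_left _ _).trans le_add_self
      · rw [min_eq_right h']
        exact (min_le_right _ _).trans (add_le_add_left ih _)

/-- Pythagoras -/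
lemma pyth (z : ℕ → H) (n : ℕ) (hz : ∀ i < n, ∀ j < n, i ≠ j → inner ℂ (z i) (z j) = 0) :
    ‖∑ j ∈ range n, z j‖ ^ 2 = ∑ j ∈ range n, ‖z j‖ ^ 2 := by
  induction n with
  | zero => simp
  | succ n ih =>
    rw [sum_range_succ, sum_range_succ]
    have h1 : inner ℂ (∑ j ∈ range n, z j) (z n) = 0 := by
      rw [sum_inner]
      refine Finset.sum_eq_zero fun j hj => ?_
      have hj' := mem_range.1 hj
      exact hz j (by omega) n (by omega) (by omega)
    have h2 := norm_add_sq_eq_norm_sq_add_norm_sq_of_inner_eq_zero _ _ h1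
    rw [sq, h2, ← sq, ← sq, ih (fun i hi j hj => hz i (by omega) j (by omega))]

variable [CompleteSpace H]

lemma proj_inner {Q : ℕ → (H →L[ℂ] H)} (hQ : OrthProj Q) {i j : ℕ} (hij : i ≠ j) (x y : H) :
    inner ℂ (Q i x) (Q j y) = 0 := by
  have h1 : inner ℂ (Q i x) (Q j y) = inner ℂ x (Q i (Q j y)) := by
    have h2 := ContinuousLinearMap.adjoint_inner_left (Q i) (Q j y) x
    rw [hQ.2.2 i] at h2
    exact h2
  have h3 : Q i (Q j y) = 0 := by
    have := hQ.2.1 i j hij
    have h4 := congrArg (fun T : H →L[ℂ] H => T y) this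
    simpa using h4
  rw [h1, h3, inner_zero_right]

lemma proj_norm {Q : ℕ → (H →L[ℂ] H)} (hQ : OrthProj Q) (i : ℕ) (x : H) : ‖Q i x‖ ≤ ‖x‖ := by
  have h1 : inner ℂ (Q i x) (Q i x) = inner ℂ x (Q i (Q i x)) := by
    have h2 := ContinuousLinearMap.adjoint_inner_left (Q i) (Q i x) x
    rw [hQ.2.2 i] at h2
    exact h2
  have h3 : Q i (Q i x) = Q i x := by
    have h4 := congrArg (fun T : H →L[ℂ] H => T x) (hQ.1 i)
    simpa using h4
  rw [h3] at h1
  have h5 : ‖Q i x‖ ^ 2 ≤ ‖x‖ * ‖Q i x‖ := by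
    have h6 : ((‖Q i x‖ : ℂ)) ^ 2 = inner ℂ x (Q i x) := by
      rw [← h1, inner_self_eq_norm_sq_to_K]
      rfl
    have h7 := norm_inner_le_norm (𝕜 := ℂ) x (Q i x)
    rw [← h6] at h7
    simpa using h7
  rcases eq_or_lt_of_le (norm_nonneg (Q i x)) with h | h
  · rw [← h]; exact norm_nonneg x
  · nlinarith

/-- The geometric part. -/
lemma bern_sum {Q : ℕ → (H →L[ℂ] H)} (hQ : OrthProj Q) {D : ℕ → (H →L[ℂ] H)} {n : ℕ}
    (hD : ∀ j < n, D j = Q j * D j * Q j) {s : ℝ} (hs : 0 < s) (V : ℕ → Submodule ℂ H)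
    (hf : ∀ j, FiniteDimensional ℂ (V j))
    (hV : ∀ j < n, ∀ x ∈ V j, s * ‖x‖ ≤ ‖D j x‖) (m : ℕ)
    (hm : m + 1 = ∑ j ∈ range n, Module.finrank ℂ (V j)) :
    Bern (∑ j ∈ range n, D j) m s := by
  -- the map `x ↦ ∑ Q_j x_j`
  have hDQ : ∀ j < n, ∀ x, D j (Q j x) = D j x := by
    intro j hj x
    have h1 : D j * Q j = D j := by
      conv_lhs => rw [hD j hj]
      rw [mul_assoc, hQ.1 j, ← hD j hj]
    have h4 := congrArg (fun T : H →L[ℂ] H => T x) h1
    simpa using h4
  have hDQ' : ∀ j < n, ∀ i, i ≠ j → ∀ x, D j (Q i x) = 0 := by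
    intro j hj i hij x
    have h1 : D j * Q i = 0 := by
      conv_lhs => rw [hD j hj]
      rw [mul_assoc, hQ.2.1 j i hij.symm, mul_zero]
    have h4 := congrArg (fun T : H →L[ℂ] H => T x) h1
    simpa using h4
  have hQD : ∀ j < n, ∀ x, Q j (D j x) = D j x := by
    intro j hj x
    have h1 : Q j * D j = D j := by
      conv_lhs => rw [hD j hj]
      rw [← mul_assoc, ← mul_assoc, hQ.1 j, ← hD j hj]
    have h4 := congrArg (fun T : H →L[ℂ] H => T x) h1
    simpa using h4
  have hQQ : ∀ j x, Q j (Q j x) = Q j x := by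
    intro j x
    have h4 := congrArg (fun T : H →L[ℂ] H => T x) (hQ.1 j)
    simpa using h4
  have hQQ' : ∀ i j, i ≠ j → ∀ x, Q i (Q j x) = 0 := by
    intro i j hij x
    have h4 := congrArg (fun T : H →L[ℂ] H => T x) (hQ.2.1 i j hij)
    simpa using h4
  let Φ : (∀ j : Fin n, V j) →ₗ[ℂ] H :=
    ∑ j : Fin n, (Q j : H →ₗ[ℂ] H) ∘ₗ (V j).subtype ∘ₗ LinearMap.proj j
  have hΦ : ∀ x, Φ x = ∑ j : Fin n, Q j (x j : H) := by
    intro x
    simp [Φ, LinearMap.sum_apply]
  have hQi : ∀ j : Fin n, ∀ x ∈ V j, Q j x = 0 → x = 0 := by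
    intro j x hx h0
    have h1 := hV j j.2 x hx
    rw [← hDQ j j.2 x, h0, map_zero, norm_zero] at h1
    have h2 : ‖x‖ ≤ 0 := by
      by_contra h3
      have := mul_pos hs (not_le.1 h3)
      linarith
    exact norm_le_zero_iff.1 h2
  have hinj : Function.Injective Φ := by
    rw [injective_iff_map_eq_zero]
    intro x hx
    rw [hΦ] at hx
    funext i
    have h1 : Q i (∑ j : Fin n, Q j (x j : H)) = 0 := by rw [hx, map_zero]
    rw [map_sum, Finset.sum_eq_single i (fun j _ hj => hQQ' i j (fun h => hj (Fin.ext h.symm)) _)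
      (fun h => absurd (mem_univ i) h), hQQ] at h1
    have h2 := hQi i _ (x i).2 h1
    exact Subtype.ext h2
  refine ⟨LinearMap.range Φ, inferInstance, ?_, ?_⟩
  · rw [LinearMap.finrank_range_of_inj hinj, Module.finrank_pi_fintype, hm, Finset.sum_range]
  · rintro _ ⟨x, rfl⟩
    rw [hΦ]
    have e1 : (∑ j ∈ range n, D j) (∑ j : Fin n, Q j (x j : H)) = ∑ j : Fin n, D j (x j : H) := by
      rw [ContinuousLinearMap.sum_apply, Finset.sum_range]
      refine Finset.sum_congr rfl fun j _ => ?_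
      rw [map_sum, Finset.sum_eq_single j (fun i _ hi => hDQ' j j.2 i (fun h => hi (Fin.ext h)) _)
        (fun h => absurd (mem_univ j) h), hDQ j j.2]
    rw [e1]
    -- extend to sequences
    let y : ℕ → H := fun j => if h : j < n then (x ⟨j, h⟩ : H) else 0
    have hy : ∀ j : Fin n, y j = (x j : H) := by
      intro j
      simp [y]
    have e2 : ∑ j : Fin n, D j (x j : H) = ∑ j ∈ range n, D j (y j) := by
      rw [Finset.sum_range]
      exact Finset.sum_congr rfl fun j _ => by rw [hy]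
    have e3 : ∑ j : Fin n, Q j (x j : H) = ∑ j ∈ range n, Q j (y j) := by
      rw [Finset.sum_range]
      exact Finset.sum_congr rfl fun j _ => by rw [hy]
    have e4 : ‖∑ j ∈ range n, D j (y j)‖ ^ 2 = ∑ j ∈ range n, ‖D j (y j)‖ ^ 2 := by
      refine pyth _ n fun i hi j hj hij => ?_
      rw [← hQD i hi, ← hQD j hj]
      exact proj_inner hQ hij _ _
    have e5 : ‖∑ j ∈ range n, Q j (y j)‖ ^ 2 = ∑ j ∈ range n, ‖Q j (y j)‖ ^ 2 :=
      pyth _ n fun i hi j hj hij => proj_inner hQ hij _ _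
    have e6 : (s * ‖∑ j ∈ range n, Q j (y j)‖) ^ 2 ≤ ‖∑ j ∈ range n, D j (y j)‖ ^ 2 := by
      rw [mul_pow, e5, e4, Finset.mul_sum]
      refine Finset.sum_le_sum fun j hj => ?_
      have hj' := mem_range.1 hj
      have h1 : s * ‖y j‖ ≤ ‖D j (y j)‖ := by
        refine hV j hj' _ ?_
        have := hy ⟨j, hj'⟩
        simp only at this
        rw [this]
        exact (x ⟨j, hj'⟩).2
      have h2 := proj_norm hQ j (y j)
      have h3 : s * ‖Q j (y j)‖ ≤ ‖D j (y j)‖ := (mul_le_mul_of_nonneg_left h2 hs.le).trans h1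
      rw [← mul_pow]
      exact pow_le_pow_left₀ (by positivity) h3 2
    rw [e2, e3]
    exact le_of_sq_le_sq e6 (norm_nonneg _)

/-- **Job BLL.** -/
theorem t_BLL (hB : S_BA) : S_BLL := by
  intro H _ _ _ Q hQ D n hD t ht
  rw [← ENat.forall_natCast_le_iff_le]
  intro k hk
  set a : ℕ → ℕ∞ := fun j => {i | t < brn i (D j)}.encard with ha
  have h1 : (k : ℕ∞) ≤ ∑ j ∈ range n, min (k : ℕ∞) (a j) := by
    have := min_sum_le (k : ℕ∞) a n
    rwa [min_eq_left hk] at this
  set d : ℕ → ℕ := fun j => (min (k : ℕ∞) (a j)).toNat with hd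
  have hd' : ∀ j, ((d j : ℕ) : ℕ∞) = min (k : ℕ∞) (a j) := by
    intro j
    refine ENat.coe_toNat ?_
    exact ne_top_of_le_ne_top (ENat.coe_ne_top k) (min_le_left _ _)
  have h2 : k ≤ ∑ j ∈ range n, d j := by
    have h3 : ((k : ℕ) : ℕ∞) ≤ ((∑ j ∈ range n, d j : ℕ) : ℕ∞) := by
      push_cast
      rw [Finset.sum_congr rfl fun j _ => hd' j]
      exact h1
    exact_mod_cast h3
  -- it suffices that all `i < k` belong to the set
  have hmain : ∀ i < k, t < apx i (∑ j ∈ range n, D j) := by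
    intro i hi
    have h3 : ∀ j, ∃ s : ℝ, 1 ≤ d j → (Bern (D j) (d j - 1) s ∧ t < ENNReal.ofReal s) := by
      intro j
      by_cases hj : 1 ≤ d j
      · have h5 : ((d j : ℕ) : ℕ∞) ≤ {i | t < brn i (D j)}.encard := by
          rw [hd' j]
          exact min_le_right _ _
        have h6 : d j - 1 ∈ {i | t < brn i (D j)} :=
          mem_of_le_encard (fun i hi m hm => brn_lt_of_le hi hm) hj h5
        obtain ⟨s, hs1, hs2⟩ := brn_spec h6
        exact ⟨s, fun _ => ⟨hs1, hs2⟩⟩
      · exact ⟨0, fun h => absurd h hj⟩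
    choose s hs using h3
    have hJ : ((range n).filter fun j => 1 ≤ d j).Nonempty := by
      by_contra hne
      rw [Finset.not_nonempty_iff_eq_empty, Finset.filter_eq_empty_iff] at hne
      have h5 : ∑ j ∈ range n, d j = 0 :=
        Finset.sum_eq_zero fun j hj => by have := hne hj; omega
      omega
    obtain ⟨j0, hj0, hmin⟩ := Finset.exists_min_image _ s hJ
    have hj0' := (Finset.mem_filter.1 hj0)
    have ht0 : t < ENNReal.ofReal (s j0) := (hs j0 hj0'.2).2
    have hs0 : 0 < s j0 := by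
      rw [← ENNReal.ofReal_pos]
      exact lt_of_le_of_lt zero_le ht0
    have hV : ∀ j, ∃ V : Submodule ℂ H, FiniteDimensional ℂ V ∧
        (j < n → Module.finrank ℂ V = d j) ∧ (j < n → ∀ x ∈ V, s j0 * ‖x‖ ≤ ‖D j x‖) := by
      intro j
      by_cases hj : j < n ∧ 1 ≤ d j
      · obtain ⟨V, hf, hr, hv⟩ := (hs j hj.2).1
        refine ⟨V, hf, fun _ => ?_, fun _ x hx => ?_⟩
        · rw [hr]; omega
        · refine le_trans ?_ (hv x hx)
          exact mul_le_mul_of_nonneg_right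
            (hmin j (Finset.mem_filter.2 ⟨mem_range.2 hj.1, hj.2⟩)) (norm_nonneg x)
      · refine ⟨⊥, inferInstance, fun h => ?_, fun h x hx => ?_⟩
        · rw [finrank_bot]
          have : ¬ 1 ≤ d j := fun h' => hj ⟨h, h'⟩
          omega
        · rw [(Submodule.mem_bot ℂ).1 hx]
          simp
    choose V hVf hVr hVn using hV
    have hsum : ∑ j ∈ range n, Module.finrank ℂ (V j) = ∑ j ∈ range n, d j :=
      Finset.sum_congr rfl fun j hj => hVr j (mem_range.1 hj)
    have hb := bern_sum hQ hD hs0 V hVf hVn (∑ j ∈ range n, Module.finrank ℂ (V j) - 1) (by omega)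
    have hb2 := bern_anti (m := i) hb (by omega)
    exact lt_of_lt_of_le ht0 (hB H _ _ _ hb2)
  have h4 : ((Finset.range k : Finset ℕ) : Set ℕ) ⊆ {i | t < apx i (∑ j ∈ range n, D j)} := by
    intro i hi
    exact hmain i (by simpa using hi)
  have h5 := Set.encard_le_encard h4
  rwa [Set.encard_coe_eq_coe_finsetCard, Finset.card_range] at h5

end

end Pool.Agent.Q194.SH
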